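import Mathlib
import Pool.Agent.Helper82.IW.Goals

open Complex MeasureTheory Set Filter Topology
open scoped ContDiff ComplexConjugate

namespace Pool.Agent.Helper37.IW

open Pool.Agent.Helper82.IW

noncomputable section

lemma isCompact_Q : IsCompact Q := by
  unfold Q
  exact isCompact_Icc.reProdIm isCompact_Icc

lemma intQ {E : Type*} [NormedAddCommGroup E] {f : ℂ → E} (hf : Continuous f) :
    IntegrableOn f Q := hf.continuousOn.integrableOn_compact isCompact_Q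

lemma ta_nonneg {ν ρ r : ℝ} (hρ : 0 < ρ) (hr : 0 ≤ r) : 0 ≤ ta ν ρ r := by
  unfold ta
  have : 0 ≤ (r / ρ) ^ (2 * ν) := Real.rpow_nonneg (div_nonneg hr hρ.le) _
  positivity

lemma ta_le_one {ν ρ r : ℝ} (hρ : 0 < ρ) (hr : 0 ≤ r) : ta ν ρ r ≤ 1 := by
  unfold ta
  have : 0 ≤ (r / ρ) ^ (2 * ν) := Real.rpow_nonneg (div_nonneg hr hρ.le) _
  rw [div_le_one (by linarith)]
  linarith

lemma Rr_pos {ε : ℝ} (hε : 0 < ε) (H : ℂ → ℂ) (z : ℂ) : 0 < Rr ε H z := by
  unfold Rr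
  apply Real.sqrt_pos.2
  positivity

lemma dx_mul {t : ℂ → ℝ} {H : ℂ → ℂ} (ht : SP t) (hH : SP H) (z : ℂ) :
    dx (fun w => (t w : ℂ) * H w) z = ((dx t z : ℝ) : ℂ) * H z + (t z : ℂ) * dx H z := by
  have h1 : DifferentiableAt ℝ t z := (ht.smooth.differentiable (by simp)) z
  have h2 : DifferentiableAt ℝ H z := (hH.smooth.differentiable (by simp)) z
  have h3 : HasFDerivAt (fun w => t w • H w) (t z • fderiv ℝ H z + (fderiv ℝ t z).smulRight (H z)) z :=
    h1.hasFDerivAt.smul h2.hasFDerivAt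
  have h4 : (fun w => (t w : ℂ) * H w) = fun w => t w • H w := by
    funext w; simp
  unfold dx
  rw [h4, h3.fderiv]
  simp
  ring

lemma dy_mul {t : ℂ → ℝ} {H : ℂ → ℂ} (ht : SP t) (hH : SP H) (z : ℂ) :
    dy (fun w => (t w : ℂ) * H w) z = ((dy t z : ℝ) : ℂ) * H z + (t z : ℂ) * dy H z := by
  have h1 : DifferentiableAt ℝ t z := (ht.smooth.differentiable (by simp)) z
  have h2 : DifferentiableAt ℝ H z := (hH.smooth.differentiable (by simp)) z
  have h3 : HasFDerivAt (fun w => t w • H w) (t z • fderiv ℝ H z + (fderiv ℝ t z).smulRight (H z)) z :=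
    h1.hasFDerivAt.smul h2.hasFDerivAt
  have h4 : (fun w => (t w : ℂ) * H w) = fun w => t w • H w := by
    funext w; simp
  unfold dy
  rw [h4, h3.fderiv]
  simp
  ring

lemma SP_mul {t : ℂ → ℝ} {H : ℂ → ℂ} (ht : SP t) (hH : SP H) :
    SP (fun w => (t w : ℂ) * H w) := by
  refine ⟨(Complex.ofRealCLM.contDiff.comp ht.smooth).mul hH.smooth, fun z => ?_⟩
  obtain ⟨a1, a2⟩ := ht.per z
  obtain ⟨b1, b2⟩ := hH.per z
  exact ⟨by simp only [a1, b1], by simp only [a2, b2]⟩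

/-- Pointwise inequality. -/
lemma pt (Hz hx hy : ℂ) (R t ν : ℝ) (hR : 0 < R) (ht0 : 0 ≤ t) (ht1 : t ≤ 1) (hν : 0 < ν)
    (hν4 : ν ≤ 1 / 4) (rx ry : ℝ) (hrx : rx = (conj Hz * hx).re / R) (hry : ry = (conj Hz * hy).re / R)
    (hq : 0 ≤ ‖hx‖ ^ 2 + ‖hy‖ ^ 2 - (rx ^ 2 + ry ^ 2)) :
    1 / 2 * (t * (‖hx‖ ^ 2 + ‖hy‖ ^ 2)) ≤
      (conj (((-(2 * ν / R) * (t * (1 - t)) * rx : ℝ) : ℂ) * Hz + (t : ℂ) * hx) * hx +
        conj (((-(2 * ν / R) * (t * (1 - t)) * ry : ℝ) : ℂ) * Hz + (t : ℂ) * hy) * hy).re := by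
  have e1 : ∀ (x : ℝ) (w : ℂ), (conj ((x : ℂ) * Hz + (t : ℂ) * w) * w).re =
      x * (conj Hz * w).re + t * ‖w‖ ^ 2 := by
    intro x w
    have : ‖w‖ ^ 2 = w.re * w.re + w.im * w.im := by
      rw [← Complex.normSq_eq_norm_sq, Complex.normSq_apply]
    rw [this]
    simp [Complex.add_re, Complex.mul_re, Complex.add_im, Complex.mul_im]
    ring
  have h1 : (conj Hz * hx).re = R * rx := by rw [hrx]; field_simp
  have h2 : (conj Hz * hy).re = R * ry := by rw [hry]; field_simp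
  rw [Complex.add_re, e1, e1, h1, h2]
  have h3 : -(2 * ν / R) * (t * (1 - t)) * rx * (R * rx) = -(2 * ν * (t * (1 - t)) * rx ^ 2) := by
    field_simp
  have h4 : -(2 * ν / R) * (t * (1 - t)) * ry * (R * ry) = -(2 * ν * (t * (1 - t)) * ry ^ 2) := by
    field_simp
  rw [h3, h4]
  set g := ‖hx‖ ^ 2 + ‖hy‖ ^ 2 with hg
  set r := rx ^ 2 + ry ^ 2 with hr
  have hr0 : 0 ≤ r := by positivity
  have hg0 : 0 ≤ g := by positivity
  have h5 : 2 * ν * (t * (1 - t)) * r ≤ 1 / 2 * (t * g) := by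
    have a1 : t * (1 - t) ≤ t := by nlinarith
    have a2 : 0 ≤ t * (1 - t) := mul_nonneg ht0 (by linarith)
    have a3 : 2 * ν * (t * (1 - t)) ≤ 1 / 2 * t := by nlinarith
    have a4 : 2 * ν * (t * (1 - t)) * r ≤ 1 / 2 * t * r := mul_le_mul_of_nonneg_right a3 hr0
    have a5 : 1 / 2 * t * r ≤ 1 / 2 * t * g := mul_le_mul_of_nonneg_left (by linarith) (by linarith)
    linarith
  have h6 : -(2 * ν * (t * (1 - t)) * rx ^ 2) + t * ‖hx‖ ^ 2 +
      (-(2 * ν * (t * (1 - t)) * ry ^ 2) + t * ‖hy‖ ^ 2) =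
      t * g - 2 * ν * (t * (1 - t)) * r := by rw [hg, hr]; ring
  rw [h6]
  linarith

theorem K2 (hSPB : S_SPB) (hIB : S_IB) (hQ : S_QUAD) : Pool.Agent.Helper82.IW.S_K2 := by
  intro ε ν ρ H hε hν hν4 hρ hH
  obtain ⟨hA, hB, hC, -⟩ := hSPB
  obtain ⟨hdx, hdy, hhl, -, -, -, -, -⟩ := hA H hH
  obtain ⟨hR, hRx, hRy⟩ := hB ε H hε hH
  obtain ⟨hT, hTx, hTy⟩ := hC ε ν ρ H hε hρ hH
  set t : ℂ → ℝ := fun z => ta ν ρ (Rr ε H z) with ht
  have htz : ∀ z, ta ν ρ (Rr ε H z) = t z := fun z => rfl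
  have hSPT : SP (fun w => (t w : ℂ) * H w) := SP_mul hT hH
  have hibp := hIB.1 _ H hSPT hH
  have ht0 : ∀ z, 0 ≤ t z := fun z => ta_nonneg hρ (Rr_pos hε H z).le
  have ht1 : ∀ z, t z ≤ 1 := fun z => ta_le_one hρ (Rr_pos hε H z).le
  have hgr : Continuous (gr H) := by
    unfold gr
    exact ((hdx.smooth.continuous.norm.pow 2).add (hdy.smooth.continuous.norm.pow 2))
  have hSPTd := hA _ hSPT
  have hc1 : Continuous fun z => (conj (dx (fun w => (t w : ℂ) * H w) z) * dx H z +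
      conj (dy (fun w => (t w : ℂ) * H w) z) * dy H z).re := by
    have u1 := hSPTd.1.smooth.continuous
    have u2 := hSPTd.2.1.smooth.continuous
    exact Complex.continuous_re.comp
      (((Complex.continuous_conj.comp u1).mul hdx.smooth.continuous).add
        ((Complex.continuous_conj.comp u2).mul hdy.smooth.continuous))
  have hc2 : Continuous fun z => (conj ((t z : ℂ) * H z) * (2 * hl H z)).re := by
    exact Complex.continuous_re.comp
      ((Complex.continuous_conj.comp hSPT.smooth.continuous).mul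
        (continuous_const.mul hhl.smooth.continuous))
  have hc3 : Continuous fun z => t z * ‖H z‖ * (2 * ‖hl H z‖) :=
    (hT.smooth.continuous.mul hH.smooth.continuous.norm).mul
      (continuous_const.mul hhl.smooth.continuous.norm)
  have hc4 : Continuous fun z => t z * gr H z := hT.smooth.continuous.mul hgr
  -- first inequality
  have hI1 : ∫ z in Q, 1 / 2 * (t z * gr H z) ≤
      ∫ z in Q, (conj (dx (fun w => (t w : ℂ) * H w) z) * dx H z +
        conj (dy (fun w => (t w : ℂ) * H w) z) * dy H z).re := by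
    refine setIntegral_mono (intQ (continuous_const.mul hc4)) (intQ hc1) (fun z => ?_)
    have hq := (hQ (H z) (dx H z) (dy H z) (Rr ε H z) ε 0 0 0 1 0 0 hε rfl le_rfl (by norm_num)
      (by norm_num) (by norm_num) le_rfl le_rfl le_rfl (by simp)).1
    have := pt (H z) (dx H z) (dy H z) (Rr ε H z) (t z) ν (Rr_pos hε H z) (ht0 z) (ht1 z) hν hν4
      (dx (Rr ε H) z) (dy (Rr ε H) z) (hRx z) (hRy z) (by rw [hRx z, hRy z]; exact hq)
    have e1 := dx_mul hT hH z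
    have e2 := dy_mul hT hH z
    rw [hTx z] at e1
    rw [hTy z] at e2
    simp only [htz] at e1 e2
    simp only [e1, e2]
    exact this
  have hI2 : ∫ z in Q, -(conj ((t z : ℂ) * H z) * (2 * hl H z)).re ≤
      ∫ z in Q, t z * ‖H z‖ * (2 * ‖hl H z‖) := by
    refine setIntegral_mono (intQ hc2.neg) (intQ hc3) (fun z => ?_)
    have e1 : -(conj ((t z : ℂ) * H z) * (2 * hl H z)).re ≤
        ‖conj ((t z : ℂ) * H z) * (2 * hl H z)‖ :=
      (neg_le_abs _).trans (Complex.abs_re_le_norm _)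
    refine e1.trans (le_of_eq ?_)
    rw [norm_mul, RCLike.norm_conj, norm_mul, norm_mul]
    simp [abs_of_nonneg (ht0 z)]
  rw [integral_neg, hibp, neg_neg] at hI2
  rw [integral_const_mul] at hI1
  show ∫ z in Q, t z * gr H z ≤ 2 * ∫ z in Q, t z * ‖H z‖ * (2 * ‖hl H z‖)
  linarith

end

end Pool.Agent.Helper37.IW
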